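import Pool.Agent.Helper15_SIQ.Stmts

/-!
# SIQ, module PR8: property (8), supports
-/

set_option autoImplicit false

open MeasureTheory Filter Topology

namespace Pool.Agent.SIQ.H76

open Pool.Agent.SIU

theorem sat_compl {O : Set E6} (hO : Sat O) : Sat (X1.U \ O) := by
  rintro y ⟨hy, hyO⟩ c hc
  refine ⟨(act1_mem_U hc y).mpr hy, fun h => hyO ?_⟩
  have h2 := hO _ h (fun j => (c j)⁻¹) fun j => inv_ne_zero (hc j)
  rwa [act1_inv hc] at h2

/-- the average of a form which vanishes near the point -/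
theorem av_zero (h5 : RhoStmt) {k : ℕ} (β : E6 → Alt 6 k) {δ : Fin 3 → ℝ} (hδ : Ad δ) {z : E6}
    (h : ∀ g ∈ X1.U, (∀ i, (1 - δ i) * √(nn g i) < (g (lo i)).re) → β (qm g z) = 0) :
    Av δ β z = 0 := by
  have h7 := (h5 δ hδ).2.2.2.2.2.2.1
  unfold Av
  have e : (fun g : E6 => rho δ g • gs g β z) = fun _ => 0 := by
    funext g
    by_cases hg : rho δ g = 0
    · rw [hg, zero_smul]
    · obtain ⟨hg1, hg2⟩ := h7 g hg
      unfold gs
      rw [h g hg1 hg2]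
      ext v
      show rho δ g * (0 : ℝ) = 0
      rw [mul_zero]
  rw [e, integral_zero, smul_zero]

theorem pr8 (h1 : TopStmt) (h2 : SupStmt) (h3 : KkpStmt) (h4 : AvfStmt) (h5 : RhoStmt) :
    Pr8Stmt := by
  intro δ hδ hlim p q hpq A O hO hsat hAO
  by_cases hex : ∃ T : X1.Current q, X1.IsCont T ∧ X1.supp T = A
  swap
  · refine ⟨0, fun T hT hs => absurd ⟨T, hT, hs⟩ hex⟩
  obtain ⟨T0, hT0, hs0⟩ := hex
  have hAU : A ⊆ X1.U := by
    rw [← hs0]
    exact fun z hz => hz.1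
  have hAsat : Sat A := by
    rw [← hs0]
    exact (h2 q T0).1
  have hAcl : X1.U ∩ closure A ⊆ A := by
    rw [← hs0]
    exact (h2 q T0).2.1
  have hFcl : X1.U ∩ closure (X1.U \ O) ⊆ X1.U \ O := by
    rintro z ⟨hz, hzc⟩
    refine ⟨hz, ?_⟩
    have : closure (X1.U \ O) ⊆ Oᶜ :=
      closure_minimal (fun x hx => hx.2) hO.isClosed_compl
    exact this hzc
  obtain ⟨OA, OF, ε, hε, hOA, hOF, hsA, hsF, hA', hF', -, -, hsep⟩ :=
    h1 A (X1.U \ O) hAU Set.sdiff_subset hAsat (sat_compl hsat)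
      (Set.disjoint_left.mpr fun z hz hz' => hz'.2 (hAO hz)) hAcl hFcl
  have hev : ∀ᶠ n in atTop, ∀ i, δ n i < ε := by
    rw [eventually_all]
    exact fun i => (hlim i).eventually (gt_mem_nhds hε)
  obtain ⟨n₀, hn₀⟩ := eventually_atTop.mp hev
  refine ⟨n₀, fun T hT hs n hn => ?_⟩
  have hsm := hn₀ n hn
  have key : ∀ z ∈ X1.U ∩ OF, (KK (δ n) p q T).1 z = (0 : X1.Form (2 * p)).1 z := by
    refine (h3 (δ n) (hδ n) p q hpq T hT).2.2.2.2 0 OF hOF hsF fun β _ hβ => ?_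
    have e1 : X1.pair (0 : X1.Form (2 * p)).1 β.1 = 0 := by
      have e2 := (h3 (δ n) (hδ n) p q hpq 0 ⟨M1, 0, isCompact_M1, M1_subset, fun β c _ => by
        simp⟩).2.1 β
      have e3 : KK (δ n) p q (0 : X1.Current q) = 0 := by
        have e4 := (h3 (δ n) (hδ n) p q hpq 0 ⟨M1, 0, isCompact_M1, M1_subset, fun β c _ => by
          simp⟩).2.2.2.1 0 ⟨M1, 0, isCompact_M1, M1_subset, fun β c _ => by simp⟩
        rw [add_zero] at e4
        exact left_eq_add.mp e4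
      rw [e3] at e2
      rw [e2]
      rfl
    rw [e1]
    refine ((h2 q T).2.2 OA hOA hsA (by rw [hs]; exact hA') _ fun z hz => ?_).symm
    by_cases hzU : z ∈ X1.U
    · obtain ⟨-, a2, a3, -⟩ := h4 (δ n) (hδ n) (2 * q) β.1 β.2.1 β.2.2.1
      rw [toF_apply a2 a3 hzU]
      refine av_zero h5 β.1 (hδ n) fun g hg hg' => hβ _ (hsep z hz g hg fun i => ?_)
      refine lt_of_le_of_lt ?_ (hg' i)
      exact mul_le_mul_of_nonneg_right (by linarith [hsm i]) (Real.sqrt_nonneg _)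
    · exact (toF _).2.2.2 z hzU
  rintro z ⟨hz, hzc⟩
  by_contra hzO
  have hzF : z ∈ OF := hF' ⟨hz, hzO⟩
  have hcl : closure {z | z ∈ X1.U ∧ (KK (δ n) p q T).1 z ≠ 0} ⊆ OFᶜ := by
    refine closure_minimal ?_ hOF.isClosed_compl
    rintro w ⟨hw, hw'⟩ hwF
    exact hw' (key w ⟨hw, hwF⟩)
  exact hcl hzc hzF

end Pool.Agent.SIQ.H76
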