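import Pool.Agent.Helper15_SIQ.Stmts

/-!
# SIQ, module TAV: the average of a current
-/

set_option autoImplicit false

open MeasureTheory Filter Topology

namespace Pool.Agent.SIQ.H76

open Pool.Agent.SIU

theorem gs_congr (h0 : QuaStmt) {k : ℕ} {β β' : E6 → Alt 6 k} (h : ∀ z ∈ X1.U, β z = β' z)
    {g z : E6} (hg : g ∈ X1.U) (hz : z ∈ X1.U) : gs g β z = gs g β' z := by
  unfold gs
  rw [h _ ((h0.2.1 g z).mpr ⟨hg, hz⟩)]

theorem rho_smul_congr (h3 : RhoStmt) {δ : Fin 3 → ℝ} (hδ : Ad δ) {V : Type*} [AddCommGroup V]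
    [Module ℝ V] {F G : E6 → V} (h : ∀ g ∈ X1.U, F g = G g) :
    (fun g => rho δ g • F g) = fun g => rho δ g • G g := by
  funext g
  by_cases hg : rho δ g = 0
  · rw [hg, zero_smul, zero_smul]
  · rw [h g ((h3 δ hδ).2.2.2.2.2.2.1 g hg).1]

theorem Av_congr (h0 : QuaStmt) (h3 : RhoStmt) {δ : Fin 3 → ℝ} (hδ : Ad δ) {k : ℕ}
    {β β' : E6 → Alt 6 k} (h : ∀ z ∈ X1.U, β z = β' z) {z : E6} (hz : z ∈ X1.U) :
    Av δ β z = Av δ β' z := by
  unfold Av
  rw [rho_smul_congr h3 hδ (F := fun g => gs g β z) (G := fun g => gs g β' z)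
    fun g hg => gs_congr h0 h hg hz]

theorem Av_add (h6 : AvfStmt) {δ : Fin 3 → ℝ} (hδ : Ad δ) {k : ℕ} (β β' : X1.Form k)
    {z : E6} (hz : z ∈ X1.U) :
    Av δ (β + β').1 z = Av δ β.1 z + Av δ β'.1 z := by
  have i1 := (h6 δ hδ k β.1 β.2.1 β.2.2.1).1 z hz
  have i2 := (h6 δ hδ k β'.1 β'.2.1 β'.2.2.1).1 z hz
  unfold Av
  rw [← smul_add, ← integral_add i1 i2]
  congr 1
  refine integral_congr_ae (Eventually.of_forall fun g => ?_)
  show rho δ g • gs g (β + β').1 z = rho δ g • gs g β.1 z + rho δ g • gs g β'.1 z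
  rw [← smul_add]
  rfl

theorem Av_smul {δ : Fin 3 → ℝ} {k : ℕ} (t : ℝ) (β : X1.Form k) (z : E6) :
    Av δ (t • β).1 z = t • Av δ β.1 z := by
  unfold Av
  have e : (fun g => rho δ g • gs g (t • β).1 z) = fun g => t • (rho δ g • gs g β.1 z) := by
    funext g
    rw [smul_comm]
    rfl
  rw [e, integral_smul t (fun g => rho δ g • gs g β.1 z), smul_comm]

theorem toF_Av (h6 : AvfStmt) {δ : Fin 3 → ℝ} (hδ : Ad δ) {k : ℕ} (β : X1.Form k) {z : E6}
    (hz : z ∈ X1.U) : (toF (Av δ β.1)).1 z = Av δ β.1 z :=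
  toF_apply (h6 δ hδ k β.1 β.2.1 β.2.2.1).2.1 (h6 δ hδ k β.1 β.2.1 β.2.2.1).2.2.1 hz

theorem toF_gs (h4 : GsfStmt) {g : E6} (hg : g ∈ X1.U) {k : ℕ} (β : X1.Form k) {z : E6}
    (hz : z ∈ X1.U) : (toF (gs g β.1)).1 z = gs g β.1 z :=
  toF_apply ((h4 g hg).1 k β.1 β.2.1) ((h4 g hg).2.1 k β.1 β.2.2.1) hz

theorem tav (h1 : CptStmt) (_h2 : QumStmt) (h3 : RhoStmt) (h4 : GsfStmt) (h5 : KpwStmt)
    (h6 : AvfStmt) (h7 : IntStmt) (h0 : QuaStmt) : TavStmt := by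
  intro δ hδ q T hT
  have hZ : 0 < Zc δ := (h3 δ hδ).2.2.2.1
  refine ⟨⟨{ toFun := fun β => T (toF (Av δ β.1)), map_add' := fun β β' => ?_,
             map_smul' := fun t β => ?_ }, fun β => rfl⟩, ?_⟩
  · show T (toF (Av δ (β + β').1)) = T (toF (Av δ β.1)) + T (toF (Av δ β'.1))
    rw [← map_add]
    congr 1
    refine form_ext fun z hz => ?_
    rw [toF_Av h6 hδ _ hz, Av_add h6 hδ β β' hz]
    show _ = (toF (Av δ β.1)).1 z + (toF (Av δ β'.1)).1 z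
    rw [toF_Av h6 hδ _ hz, toF_Av h6 hδ _ hz]
  · show T (toF (Av δ (t • β).1)) = t • T (toF (Av δ β.1))
    rw [← map_smul]
    congr 1
    refine form_ext fun z hz => ?_
    rw [toF_Av h6 hδ _ hz, Av_smul]
    show _ = t • (toF (Av δ β.1)).1 z
    rw [toF_Av h6 hδ _ hz]
  intro S hS
  -- continuity
  have hcont : X1.IsCont S := by
    obtain ⟨Q, C, hQ, hQU, hC⟩ := hT
    obtain ⟨C1, hC1, hb1⟩ := h1.2.2.2.2.2.1 Q hQ hQU (2 * q)
    obtain ⟨C2, hC2, hb2⟩ := h1.2.2.2.2.2.1 M1 isCompact_M1 M1_subset (2 * q)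
    refine ⟨M1, C * (C1 * C2), isCompact_M1, M1_subset, fun β c hβ => ?_⟩
    obtain ⟨-, a2, a3, -, a5⟩ := h6 δ hδ (2 * q) β.1 β.2.1 β.2.2.1
    rw [hS β]
    have e1 : ∀ z ∈ M1, ‖cmp β.1 z‖ ≤ C2 * c := fun z hz =>
      ((hb2 β.1 β.2.2.1 z hz).2).trans (mul_le_mul_of_nonneg_left (hβ z hz) hC2)
    have e2 := a5 (C2 * c) e1
    have e3 := hC (toF (Av δ β.1)) (C1 * (C2 * c)) fun z hz => by
      rw [toF_Av h6 hδ β (hQU hz)]
      exact ((hb1 (Av δ β.1) a3 z hz).1).trans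
        (mul_le_mul_of_nonneg_left (e2 _ (M1_subset (nz_mem (hQU hz)))) hC1)
    calc |T (toF (Av δ β.1))| ≤ C * (C1 * (C2 * c)) := e3
      _ = C * (C1 * C2) * c := by ring
  -- bidimension
  have hbid : X1.IsBidim T → X1.IsBidim S := by
    intro hbT u hu β β' hβ
    rw [hS β, hS β']
    refine hbT u hu _ _ fun z hz v => ?_
    rw [toF_Av h6 hδ β' hz, toF_Av h6 hδ β hz]
    have e1 : ∀ z ∈ X1.U, β'.1 z = rotF u β.1 z := by
      intro z hz
      ext v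
      exact hβ z hz v
    rw [Av_congr h0 h3 hδ e1 hz]
    have e2 : Av δ (rotF u β.1) z = (Av δ β.1 z).compContinuousLinearMap (mulC 6 u) := by
      unfold Av
      have e3 := rho_smul_congr h3 hδ (F := fun g => gs g (rotF u β.1) z)
        (G := fun g => rotF u (gs g β.1) z)
        fun g hg => by rw [(h4 g hg).2.2.2.2.2.2.1 (2 * q) u β.1]
      rw [e3]
      have i1 := (h6 δ hδ (2 * q) β.1 β.2.1 β.2.2.1).1 z hz
      have e4 := (ContinuousAlternatingMap.compContinuousLinearMapCLM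
        (𝕜 := ℝ) (F := ℝ) (ι := Fin (2 * q)) (mulC 6 u)).integral_comp_comm i1
      have e5 : (fun g => rho δ g • rotF u (gs g β.1) z) = fun g =>
          (ContinuousAlternatingMap.compContinuousLinearMapCLM
        (𝕜 := ℝ) (F := ℝ) (ι := Fin (2 * q)) (mulC 6 u)) (rho δ g • gs g β.1 z) := by
        funext g
        rfl
      rw [e5, e4]
      rfl
    rw [e2]
    rfl
  refine ⟨hcont, hbid, fun w hw => ?_, fun hcl => ?_, fun c hc => ?_⟩
  · -- positivity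
    refine ⟨hbid hw.1, hcont, fun β hβ => ?_⟩
    rw [hS β, (h7 δ hδ q T hT β).2]
    refine mul_nonneg (inv_nonneg.mpr hZ.le) (integral_nonneg fun g => ?_)
    show 0 ≤ rho δ g * T (toF (gs g β.1))
    by_cases hg : rho δ g = 0
    · rw [hg, zero_mul]
    · have hgU := ((h3 δ hδ).2.2.2.2.2.2.1 g hg).1
      refine mul_nonneg ((h3 δ hδ).2.1 g).1 (hw.2.2 _ fun z hz => ?_)
      rw [toF_gs h4 hgU β hz]
      exact (h4 g hgU).2.2.2.2.2.1 (!w) q β.1 z
        (hβ _ ((h0.2.1 g z).mpr ⟨hgU, hz⟩))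
  · -- closed
    intro k hk η hη β hβ
    rw [hS β, (h7 δ hδ q T hT β).2]
    have e : (fun g => rho δ g * T (toF (gs g β.1))) = fun _ => 0 := by
      funext g
      by_cases hg : rho δ g = 0
      · rw [hg, zero_mul]
      · have hgU := ((h3 δ hδ).2.2.2.2.2.2.1 g hg).1
        have hsm : X1.Smooth (toF (gs g η.1)).1 :=
          ((h4 g hgU).2.2.1 k η.1 hη).congr fun z hz => toF_gs h4 hgU η hz
        rw [hcl k hk (toF (gs g η.1)) hsm (toF (gs g β.1)) fun z hz v => ?_, mul_zero]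
        rw [toF_gs h4 hgU β hz]
        have e1 : (toF (gs g η.1)).1 =ᶠ[𝓝 z] gs g η.1 := by
          filter_upwards [isOpen_U1.mem_nhds hz] with w hw
          exact toF_gs h4 hgU η hw
        rw [e1.extDeriv_eq, (h4 g hgU).2.2.2.1 k η.1 (hη.differentiableOn (by simp)) z hz]
        exact hβ _ ((h0.2.1 g z).mpr ⟨hgU, hz⟩) _
    rw [e, integral_zero, mul_zero]
  · -- mass
    intro β hβ
    rw [hS β]
    refine hc _ fun z hz => ?_
    rw [toF_Av h6 hδ β hz]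
    unfold Av
    rw [rho_smul_congr h3 hδ (F := fun g => gs g β.1 z) (G := fun _ => X1.kpow q z)
      fun g hg => by rw [gs_congr h0 hβ hg hz, (h5 q).2.2.2 g hg z hz], integral_smul_const,
      smul_smul]
    have : (Zc δ)⁻¹ * ∫ g, rho δ g = 1 := inv_mul_cancel₀ hZ.ne'
    rw [this, one_smul]

end Pool.Agent.SIQ.H76
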